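import Mathlib

set_option autoImplicit false
set_option maxHeartbeats 400000

namespace Pool.Agent.Results.MP_506947_al.Example

/-- `(ℤG)^r₁ → (ℤG)^r₀ → ℤ → 0` is a finitely generated free first-stage resolution with
boundary map `d₁`. -/
def IsFirstResolution (G : Type) [Group G] (r₀ r₁ : ℕ)
    (d₁ : (Fin r₁ → MonoidAlgebra ℤ G) →ₗ[MonoidAlgebra ℤ G] (Fin r₀ → MonoidAlgebra ℤ G)) : Prop :=
  ∃ d₀ : (Fin r₀ → MonoidAlgebra ℤ G) →+ ℤ,
    (∀ (g : G) x, d₀ (MonoidAlgebra.of ℤ G g • x) = d₀ x) ∧ Function.Surjective d₀ ∧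
      Function.Exact d₁ d₀

noncomputable def bd {G : Type} [Group G] {r : ℕ} (g : Fin r → G) :
    (Fin r → MonoidAlgebra ℤ G) →ₗ[MonoidAlgebra ℤ G] (Fin 1 → MonoidAlgebra ℤ G) :=
  LinearMap.pi fun _ => Fintype.linearCombination _ fun i => MonoidAlgebra.of ℤ G (g i) - 1

lemma bd_apply {G : Type} [Group G] {r : ℕ} (g : Fin r → G) (x : Fin r → MonoidAlgebra ℤ G)
    (j : Fin 1) : bd g x j = ∑ i, x i * (MonoidAlgebra.of ℤ G (g i) - 1) := by
  simp [bd, Fintype.linearCombination_apply]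

lemma res {G : Type} [Group G] {r : ℕ} (g : Fin r → G) (hg : Subgroup.closure (Set.range g) = ⊤) :
    IsFirstResolution G 1 r (bd g) := by
  obtain ⟨ε, hε⟩ : ∃ ε : MonoidAlgebra ℤ G →ₐ[ℤ] ℤ, ∀ h, ε (MonoidAlgebra.of ℤ G h) = 1 :=
    ⟨MonoidAlgebra.lift ℤ ℤ G 1, fun h => by simp⟩
  obtain ⟨I, hI⟩ : ∃ I : Ideal (MonoidAlgebra ℤ G),
    I = Submodule.span _ (Set.range fun i => MonoidAlgebra.of ℤ G (g i) - 1) := ⟨_, rfl⟩
  have h1 : ∀ h : G, MonoidAlgebra.of ℤ G h - 1 ∈ I := by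
    intro h
    have : h ∈ Subgroup.closure (Set.range g) := by rw [hg]; trivial
    induction this using Subgroup.closure_induction with
    | mem x hx => obtain ⟨i, rfl⟩ := hx; rw [hI]; exact Submodule.subset_span ⟨i, rfl⟩
    | one => simp [← MonoidAlgebra.one_def]
    | mul x y _ _ h1 h2 =>
      convert I.add_mem h1 (I.mul_mem_left (MonoidAlgebra.of ℤ G x) h2) using 1
      rw [map_mul]; noncomm_ring
    | inv x _ h1 =>
      convert I.neg_mem (I.mul_mem_left (MonoidAlgebra.of ℤ G x⁻¹) h1) using 1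
      rw [mul_sub, ← map_mul, inv_mul_cancel, map_one]; noncomm_ring
  have h2 : ∀ f : MonoidAlgebra ℤ G, f - (ε f : ℤ) ∈ I := by
    intro f
    induction f using MonoidAlgebra.induction_on with
    | of h => rw [hε, Int.cast_one]; exact h1 h
    | add f f' h3 h4 =>
      convert I.add_mem h3 h4 using 1
      rw [map_add]; push_cast; abel
    | smul c f h3 =>
      convert I.mul_mem_left (c : MonoidAlgebra ℤ G) h3 using 1
      rw [map_smul, mul_sub]; simp
  refine ⟨ε.toRingHom.toAddMonoidHom.comp (Pi.evalAddMonoidHom _ 0), fun h x => ?_,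
    fun n => ⟨fun _ => n, by simp⟩, fun x => ⟨fun hx => ?_, ?_⟩⟩
  · show ε (MonoidAlgebra.of ℤ G h * x 0) = ε (x 0)
    rw [map_mul, hε, one_mul]
  · have hx : ε (x 0) = 0 := hx
    have h3 := h2 (x 0)
    rw [hx, Int.cast_zero, sub_zero, hI, Submodule.mem_span_range_iff_exists_fun] at h3
    obtain ⟨c, hc⟩ := h3
    exact ⟨c, funext fun j => by rw [bd_apply, Subsingleton.elim j 0]; exact hc⟩
  · rintro ⟨c, rfl⟩
    show ε (bd g c 0) = 0
    simp only [bd_apply, map_sum, map_mul, map_sub, hε, map_one, sub_self, mul_zero,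
      Finset.sum_const_zero]

lemma cl_top {E ι : Type} [Group E] (K : Subgroup E) (f : ι → K)
    (h : K ≤ Subgroup.closure (Set.range fun i => (f i).1)) : Subgroup.closure (Set.range f) = ⊤ := by
  apply Subgroup.map_injective K.subtype_injective
  rw [MonoidHom.map_closure, ← Set.range_comp, ← MonoidHom.range_eq_map, Subgroup.range_subtype]
  exact le_antisymm ((Subgroup.closure_le _).mpr (by rintro _ ⟨i, rfl⟩; exact (f i).2)) h

abbrev V : Type := (ℕ → ℤ) × (ℕ → ℤ)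
abbrev W : Type := V × (Fin 7 → V)

def ta (π : (Fin 7 → V) →ₗ[ℤ] V) : Module.End ℤ W :=
  LinearMap.inl ℤ _ _ ∘ₗ π ∘ₗ LinearMap.snd ℤ _ _

def la (n : Module.End ℤ V) : Module.End ℤ W := LinearMap.inl ℤ _ _ ∘ₗ n ∘ₗ LinearMap.fst ℤ _ _

def tr (π : (Fin 7 → V) →ₗ[ℤ] V) : (Module.End ℤ W)ˣ :=
  ⟨1 + ta π, 1 - ta π, LinearMap.ext fun w => by simp [ta], LinearMap.ext fun w => by simp [ta]⟩

def ev (a : ℕ) : Module.End ℤ (ℕ → ℤ) := LinearMap.funLeft ℤ ℤ fun k => 2 * k + a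

def od (a : ℕ) : Module.End ℤ (ℕ → ℤ) where
  toFun f k := if k % 2 = a then f (k / 2) else 0
  map_add' f g := by ext k; split_ifs <;> simp [*]
  map_smul' c f := by ext k; split_ifs <;> simp [*]

def up (s : Module.End ℤ (ℕ → ℤ)) : Module.End ℤ V :=
  LinearMap.inl ℤ _ _ ∘ₗ s ∘ₗ LinearMap.snd ℤ _ _

def nn : Fin 7 → Module.End ℤ V :=
  ![0, 0, LinearMap.inr ℤ _ _ ∘ₗ LinearMap.fst ℤ _ _, up (ev 0), up (ev 1), up (od 0), up (od 1)]

lemma nn_sq (i : Fin 7) (v : V) : nn i (nn i v) = 0 := by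
  fin_cases i <;> simp [nn, up]

def gg (i : Fin 7) : (Module.End ℤ W)ˣ := tr (LinearMap.proj i) *
  ⟨1 + la (nn i), 1 - la (nn i), LinearMap.ext fun w => by simp [la, nn_sq],
    LinearMap.ext fun w => by simp [la, nn_sq]⟩

lemma gg_apply (i : Fin 7) (w : W) : (gg i).1 w = (w.1 + nn i w.1 + w.2 i, w.2) := by
  ext1 <;> simp [gg, tr, ta, la]

abbrev Γ : Type := (Module.End ℤ W)ˣ × Multiplicative (Fin 7 → ℤ)

lemma tr_add (a b : (Fin 7 → V) →ₗ[ℤ] V) : tr (a + b) = tr a * tr b :=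
  Units.ext (LinearMap.ext fun w => by ext1 <;> simp [tr, ta]; abel)

lemma tr_neg (a : (Fin 7 → V) →ₗ[ℤ] V) : tr (-a) = (tr a)⁻¹ :=
  Units.ext (LinearMap.ext fun w => by simp [tr, ta, sub_eq_add_neg])

def NH (H : Subgroup Γ) : AddSubgroup ((Fin 7 → V) →ₗ[ℤ] V) where
  carrier := {π | (tr π, 1) ∈ H}
  zero_mem' := by
    have : tr 0 = 1 := Units.ext (LinearMap.ext fun w => by simp [tr, ta])
    show (tr 0, 1) ∈ H
    rw [this]; exact H.one_mem
  add_mem' {a b} ha hb := by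
    simpa [tr_add] using H.mul_mem ha hb
  neg_mem' {a} ha := by
    simpa [tr_neg] using H.inv_mem ha

def gG (i : Fin 7) : Γ := (gg i, Multiplicative.ofAdd (Pi.single i 1))

lemma NH_nn (H : Subgroup Γ) (i : Fin 7) (hi : gG i ∈ H) (π) (b) (h : (tr π, b) ∈ H) :
    nn i ∘ₗ π ∈ NH H := by
  have h1 : tr (π + nn i ∘ₗ π) = gg i * tr π * (gg i)⁻¹ := by
    rw [eq_mul_inv_iff_mul_eq]
    refine Units.ext (LinearMap.ext fun w => ?_)
    simp [gg_apply, tr, ta]
    abel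
  have h2 := H.mul_mem (H.inv_mem h) (H.mul_mem (H.mul_mem hi h) (H.inv_mem hi))
  show (tr _, 1) ∈ H
  convert h2 using 1
  ext1
  · simp [gG, ← h1, tr_add]
  · simp [gG]

lemma NH_dg (H : Subgroup Γ) (i : Fin 7) (h2 : gG 2 ∈ H) (hi : gG i ∈ H)
    (s : Module.End ℤ (ℕ → ℤ)) (hs : nn i = up s) (π) (b) (h : (tr π, b) ∈ H) :
    s.prodMap s ∘ₗ π ∈ NH H := by
  convert (NH H).add_mem (NH_nn H i hi _ _ (NH_nn H 2 h2 _ _ h))
    (NH_nn H 2 h2 _ _ (NH_nn H i hi _ _ h))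
  refine LinearMap.ext fun z => ?_
  rw [hs]
  ext1 <;> simp [nn, up]

def n0 : (Fin 7 → V) →ₗ[ℤ] V :=
  (od 0).prodMap (od 0) ∘ₗ LinearMap.proj 0 + (od 1).prodMap (od 1) ∘ₗ LinearMap.proj 1

def GG : Subgroup Γ := Subgroup.closure (Set.range gG)

lemma gg_mem (i : Fin 7) : gG i ∈ GG := Subgroup.subset_closure ⟨i, rfl⟩

lemma gg0 : gg 0 = tr (LinearMap.proj 0) :=
  Units.ext (LinearMap.ext fun w => by ext1 <;> simp [gg_apply, tr, ta, nn])

lemma gg1 : gg 1 = tr (LinearMap.proj 1) :=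
  Units.ext (LinearMap.ext fun w => by ext1 <;> simp [gg_apply, tr, ta, nn])

lemma evn (a : Fin 2) :
    (ev a).prodMap (ev a) ∘ₗ n0 = LinearMap.proj (a.castLE (by norm_num)) := by
  refine LinearMap.ext fun z => ?_
  have e1 : ∀ k, (2 * k + 1) % 2 = 1 := by omega
  have e2 : ∀ k, (2 * k + 1) / 2 = k := by omega
  fin_cases a <;> ext k <;> simp [n0, ev, od, LinearMap.funLeft_apply, e1, e2]

lemma n0_of (H : Subgroup Γ) (h : ∀ i : Fin 7, 2 ≤ i → gG i ∈ H) (b c)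
    (h0 : (tr (LinearMap.proj 0), b) ∈ H) (h1 : (tr (LinearMap.proj 1), c) ∈ H) : n0 ∈ NH H :=
  (NH H).add_mem (NH_dg H 5 (h _ (by decide)) (h _ (by decide)) _ rfl _ _ h0)
    (NH_dg H 6 (h _ (by decide)) (h _ (by decide)) _ rfl _ _ h1)

lemma pr_of (H : Subgroup Γ) (h : ∀ i : Fin 7, 2 ≤ i → gG i ∈ H) (b) (h0 : (tr n0, b) ∈ H) :
    (gg 0, 1) ∈ H ∧ (gg 1, 1) ∈ H := by
  have h1 := NH_dg H 3 (h _ (by decide)) (h _ (by decide)) _ rfl _ _ h0
  have h2 := NH_dg H 4 (h _ (by decide)) (h _ (by decide)) _ rfl _ _ h0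
  exact ⟨gg0 ▸ (evn 0 ▸ h1 :), gg1 ▸ (evn 1 ▸ h2 :)⟩

lemma n0_mem : (tr n0, 1) ∈ GG :=
  n0_of GG (fun i _ => gg_mem i) _ _ (by rw [← gg0]; exact gg_mem 0)
    (by rw [← gg1]; exact gg_mem 1)

def hΓ (j : Fin 7) : Γ :=
  if j = 0 then (tr n0, (gG 0).2) else if j = 1 then (1, (gG 1).2) else gG j

lemma hΓ_mem (j : Fin 7) : hΓ j ∈ GG := by
  obtain ⟨h0, h1⟩ := pr_of GG (fun i _ => gg_mem i) _ n0_mem
  unfold hΓ
  split_ifs
  · convert GG.mul_mem n0_mem (GG.mul_mem (GG.inv_mem h0) (gg_mem 0)) using 1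
    ext1 <;> simp [gG]
  · convert GG.mul_mem (GG.inv_mem h1) (gg_mem 1) using 1
    ext1 <;> simp [gG]
  · exact gg_mem j

def hh (j : Fin 7) : GG := ⟨hΓ j, hΓ_mem j⟩
def g0 (j : Fin 7) : GG := ⟨gG j, gg_mem j⟩

lemma hh_top : Subgroup.closure (Set.range hh) = ⊤ := by
  refine cl_top _ _ ((Subgroup.closure_le _).mpr ?_)
  generalize hH : Subgroup.closure (Set.range fun i => (hh i).1) = H
  have h0 : ∀ j, hΓ j ∈ H := fun j => hH ▸ Subgroup.subset_closure ⟨j, rfl⟩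
  have h2 : ∀ i : Fin 7, 2 ≤ i → gG i ∈ H := by
    intro i hi
    have := h0 i
    rwa [hΓ, if_neg (by rintro rfl; simp at hi), if_neg (by rintro rfl; simp at hi)] at this
  obtain ⟨p0, p1⟩ := pr_of H h2 _ (h0 0)
  have p2 : (tr n0, 1) ∈ H := n0_of H h2 _ _ (gg0 ▸ p0) (gg1 ▸ p1)
  rintro _ ⟨i, rfl⟩
  show gG i ∈ H
  by_cases i0 : i = 0
  · subst i0
    convert H.mul_mem p0 (H.mul_mem (H.inv_mem p2) (h0 0)) using 1
    ext1 <;> simp [gG, hΓ]
  by_cases i1 : i = 1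
  · subst i1
    convert H.mul_mem p1 (h0 1) using 1
    ext1 <;> simp [gG, hΓ]
  · exact h2 i (by omega)

noncomputable def Ph : MonoidAlgebra ℤ GG →ₐ[ℤ] Module.End ℤ W :=
  MonoidAlgebra.lift ℤ _ GG ((Units.coeHom _).comp ((MonoidHom.fst _ _).comp GG.subtype))

lemma Ph_inv (f : MonoidAlgebra ℤ GG) (v : V) : (Ph f (v, 0)).2 = 0 := by
  induction f using MonoidAlgebra.induction_on with
  | of h =>
    obtain ⟨h, hh⟩ := h
    suffices h1 : ∀ w : W, (h.1.1 w).2 = w.2 by simpa [Ph] using h1 (v, 0)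
    induction hh using Subgroup.closure_induction with
    | mem x hx => obtain ⟨i, rfl⟩ := hx; simp [gG, gg_apply]
    | one => simp
    | mul x y _ _ h1 h2 => intro w; simp [h1, h2]
    | inv x _ h1 =>
      intro w
      rw [← h1, ← Module.End.mul_apply, Prod.fst_inv, Units.mul_inv, Module.End.one_apply]
  | add f f' h1 h2 => simp [h1, h2]
  | smul c f h1 => simp [h1]

lemma minimal {G : Type} [Group G] {k : ℕ} (χ : G →* Multiplicative (Fin k → ℤ))
    (hχ : Function.Surjective χ) (s₀ s₁ : ℕ)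
    (d : (Fin s₁ → MonoidAlgebra ℤ G) →ₗ[MonoidAlgebra ℤ G] (Fin s₀ → MonoidAlgebra ℤ G))
    (h : IsFirstResolution G s₀ s₁ d) : s₀ + k ≤ s₁ + 1 := by
  obtain ⟨d₀, h1, h2, h3⟩ := h
  obtain ⟨c, hc⟩ := h2 1
  obtain ⟨ε, hε⟩ : ∃ ε : MonoidAlgebra ℤ G →ₐ[ℤ] ℤ, ∀ h, ε (MonoidAlgebra.of ℤ G h) = 1 :=
    ⟨MonoidAlgebra.lift ℤ ℤ G 1, fun h => by simp⟩
  obtain ⟨δ, hδ⟩ : ∃ δ : MonoidAlgebra ℤ G →ₗ[ℤ] (Fin k → ℤ),
      ∀ h, δ (MonoidAlgebra.of ℤ G h) = (χ h).toAdd :=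
    ⟨(Finsupp.linearCombination ℤ fun g => (χ g).toAdd) ∘ₗ
      (MonoidAlgebra.coeffLinearEquiv ℤ).toLinearMap, fun h => by simp⟩
  have hd : ∀ (a : MonoidAlgebra ℤ G) x, d₀ (a • x) = ε a * d₀ x := by
    intro a x
    induction a using MonoidAlgebra.induction_on with
    | of g => rw [h1, hε, one_mul]
    | add a b ha hb => rw [add_smul, map_add, ha, hb, map_add, add_mul]
    | smul r a ha => rw [smul_assoc, map_zsmul, ha, map_smul, smul_eq_mul, smul_eq_mul, mul_assoc]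
  have hm : ∀ a b, δ (a * b) = ε a • δ b + ε b • δ a := by
    intro a b
    induction a using MonoidAlgebra.induction_on with
    | of g =>
      induction b using MonoidAlgebra.induction_on with
      | of g' => rw [← map_mul, hδ, hδ, hδ, hε, hε, map_mul]; simp [add_comm]
      | add a b ha hb => simp only [mul_add, map_add, ha, hb]; module
      | smul r a ha => simp only [mul_smul_comm, map_smul, ha, smul_eq_mul]; module
    | add a a' ha ha' => simp only [add_mul, map_add, ha, ha']; module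
    | smul r a ha => simp only [smul_mul_assoc, map_smul, ha, smul_eq_mul]; module
  let φ : (Fin s₀ → MonoidAlgebra ℤ G) → MonoidAlgebra ℤ G :=
    fun x => ∑ j, d₀ (Pi.single j 1) • x j
  have hφ : ∀ x, ε (φ x) = d₀ x := by
    intro x
    conv_rhs => rw [pi_eq_sum_univ' x]
    simp only [φ, map_sum, map_smul, hd, smul_eq_mul, mul_comm]
  have hφ1 : ∀ (a : MonoidAlgebra ℤ G) x, φ (a • x) = a * φ x := by
    intro a x; simp only [φ, Finset.mul_sum, Pi.smul_apply, smul_eq_mul, mul_smul_comm]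
  have hφ2 : ∀ x y, φ (x + y) = φ x + φ y := by
    intro x y; simp only [φ, Pi.add_apply, smul_add, Finset.sum_add_distrib]
  let F : (Fin s₀ → ℤ) × (Fin k → ℤ) → (Fin s₀ → MonoidAlgebra ℤ G) → ℤ :=
    fun p x => ∑ j, p.1 j * ε (x j) + ∑ i, p.2 i * δ (φ x) i
  have hF2 : ∀ p x y, F p (x + y) = F p x + F p y := by
    intro p x y
    simp only [F, hφ2, map_add, Pi.add_apply, mul_add, Finset.sum_add_distrib]; ring
  have hF1 : ∀ p (a : MonoidAlgebra ℤ G) x,
      F p (a • x) = ε a * F p x + d₀ x * ∑ i, p.2 i * δ a i := by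
    intro p a x
    simp only [F, hφ1, hm, hφ, Pi.smul_apply, smul_eq_mul, map_mul, Pi.add_apply, mul_add,
      Finset.sum_add_distrib, Finset.mul_sum]
    simp only [mul_left_comm, add_assoc]
  let Ψ : ((Fin s₀ → ℤ) × (Fin k → ℤ)) →ₗ[ℤ] ((Fin s₁ → ℤ) × ℤ) :=
    { toFun := fun p => (fun j => F p (d (Pi.single j 1)), F p c)
      map_add' := by
        intro p q
        ext <;> simp [F, add_mul, Finset.sum_add_distrib] <;> ring
      map_smul' := by
        intro r p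
        ext <;> simp [F, mul_add, Finset.mul_sum, mul_assoc] }
  have hinj : Function.Injective Ψ := by
    rw [injective_iff_map_eq_zero]
    intro p hp
    have e1 : ∀ j, F p (d (Pi.single j 1)) = 0 := fun j => congrFun (congrArg Prod.fst hp) j
    have e2 : F p c = 0 := congrArg Prod.snd hp
    have e3 : ∀ x, d₀ x = 0 → F p x = 0 := by
      intro x hx
      obtain ⟨y, rfl⟩ := (h3 x).mp hx
      rw [pi_eq_sum_univ' y, map_sum]
      refine Finset.sum_induction _ (fun z => F p z = 0) (fun a b ha hb => ?_) (by simp [F, φ])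
        fun j _ => ?_
      · rw [hF2, ha, hb, add_zero]
      · rw [map_smul, hF1, e1, (h3 _).mpr ⟨_, rfl⟩]; simp
    have e4 : p.2 = 0 := by
      funext i
      obtain ⟨g, hg⟩ := hχ (Multiplicative.ofAdd (Pi.single i 1))
      have := e3 ((MonoidAlgebra.of ℤ G g - 1) • c) (by rw [hd, map_sub, hε, map_one]; simp)
      have e5 : δ 1 = 0 := by
        have := hδ 1
        rw [map_one (MonoidAlgebra.of ℤ G), map_one χ] at this
        simpa using this
      rw [hF1, e2, hc, map_sub δ, hδ, hg, e5] at this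
      simpa [Pi.single_apply] using this
    have e5 : p.1 = 0 := by
      funext j
      have := e3 (Pi.single j 1 + ((-d₀ (Pi.single j 1) : ℤ) : MonoidAlgebra ℤ G) • c) (by
        rw [map_add, hd, hc]; simp)
      rw [hF2, hF1, e2, e4] at this
      simpa [F, e4, Pi.single_apply, apply_ite ε] using this
    exact Prod.ext e5 e4
  simpa using LinearMap.finrank_le_finrank_of_injective hinj

/-- The Fox ideal of the kernel of `d`. -/
noncomputable def Fox (G : Type) [Group G] (r₀ r₁ : ℕ)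
    (d : (Fin r₁ → MonoidAlgebra ℤ G) →ₗ[MonoidAlgebra ℤ G] (Fin r₀ → MonoidAlgebra ℤ G)) :
    TwoSidedIdeal (MonoidAlgebra ℤ G) :=
  TwoSidedIdeal.span {a | ∃ x, d x = 0 ∧ ∃ j, a = x j}

/-- Minimal directed Euler characteristic among all first-stage resolutions. -/
def IsMinimal (G : Type) [Group G] (r₀ r₁ : ℕ) : Prop :=
  ∀ (s₀ s₁ : ℕ)
    (e : (Fin s₁ → MonoidAlgebra ℤ G) →ₗ[MonoidAlgebra ℤ G] (Fin s₀ → MonoidAlgebra ℤ G)),
    IsFirstResolution G s₀ s₁ e → (r₁ : ℤ) - r₀ ≤ (s₁ : ℤ) - s₀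

theorem result : ∃ (G : Type) (_ : Group G) (r₀ r₁ s₀ s₁ : ℕ)
    (d : (Fin r₁ → MonoidAlgebra ℤ G) →ₗ[MonoidAlgebra ℤ G] (Fin r₀ → MonoidAlgebra ℤ G))
    (d' : (Fin s₁ → MonoidAlgebra ℤ G) →ₗ[MonoidAlgebra ℤ G] (Fin s₀ → MonoidAlgebra ℤ G)),
    IsFirstResolution G r₀ r₁ d ∧ IsFirstResolution G s₀ s₁ d' ∧
      IsMinimal G r₀ r₁ ∧ IsMinimal G s₀ s₁ ∧ Fox G r₀ r₁ d ≠ Fox G s₀ s₁ d' := by
  have hmin : IsMinimal GG 1 7 := by
    intro s₀ s₁ e he
    have := minimal ((MonoidHom.snd _ _).comp GG.subtype) (by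
      rw [← MonoidHom.range_eq_top, eq_top_iff]
      intro x _
      have : x = ∏ i, (Multiplicative.ofAdd (Pi.single i 1 : Fin 7 → ℤ)) ^ (x.toAdd i) := by
        apply Multiplicative.toAdd.injective
        funext j
        simp [toAdd_prod, Pi.single_apply]
      rw [this]
      exact Subgroup.prod_mem _ fun i _ => Subgroup.zpow_mem _ (MonoidHom.mem_range.mpr ⟨g0 i, rfl⟩) _) s₀ s₁ e he
    omega
  refine ⟨GG, inferInstance, 1, 7, 1, 7, bd g0, bd hh,
    res _ (cl_top _ _ le_rfl), res _ hh_top, hmin, hmin, fun h => ?_⟩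
  have h1 : ∀ a ∈ Fox GG 1 7 (bd g0), ∀ v : V, Ph a (v, 0) = 0 := by
    intro a ha
    induction ha using TwoSidedIdeal.span_induction with
    | mem a ha =>
      obtain ⟨x, hx, j, rfl⟩ := ha
      intro v
      have h2 := congrArg (fun f => Ph f (0, Pi.single j v)) (congrFun hx 0)
      simp only [bd_apply, map_sum, map_mul, map_sub, map_one, LinearMap.sum_apply,
        Module.End.mul_apply, Pi.zero_apply, map_zero, LinearMap.zero_apply] at h2
      rw [Finset.sum_eq_single j] at h2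
      · simpa [Ph, g0, gG, gg_apply] using h2
      · intro i _ hi
        simp [Ph, g0, gG, gg_apply, hi]
      · simp
    | zero => simp
    | add a b _ _ h2 h3 => intro v; simp [h2, h3]
    | neg a _ h2 => intro v; simp [h2]
    | left_absorb a b _ h2 => intro v; simp [h2]
    | right_absorb b a _ h2 =>
      intro v
      have h3 : Ph b (v, 0) = ((Ph b (v, 0)).1, 0) := Prod.ext rfl (Ph_inv b v)
      rw [map_mul, Module.End.mul_apply, h3, h2]
  have hc : hh 1 * hh 2 = hh 2 * hh 1 := by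
    apply Subtype.ext
    ext1 <;> simp [hh, hΓ, mul_comm]
  have h2 := h1 (1 - MonoidAlgebra.of ℤ GG (hh 2)) (by
    rw [h]
    refine TwoSidedIdeal.subset_span ⟨Pi.single 1 (1 - MonoidAlgebra.of ℤ GG (hh 2)) +
      Pi.single 2 (MonoidAlgebra.of ℤ GG (hh 1) - 1), ?_, 1, by simp⟩
    funext j
    rw [map_add, Pi.add_apply, bd_apply, bd_apply, Finset.sum_eq_single 1, Finset.sum_eq_single 2]
    · simp only [Pi.single_eq_same, Pi.zero_apply, sub_mul, mul_sub, ← map_mul, hc, one_mul,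
        mul_one]
      abel
    · intro i _ hi; simp [hi]
    · simp
    · intro i _ hi; simp [hi]
    · simp) 1
  have h3 := congrFun (congrArg (fun w : W => w.1.2) h2) 0
  simp [Ph, hh, hΓ, gG, gg_apply, nn] at h3

end Pool.Agent.Results.MP_506947_al.Example
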